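import Mathlib

/-!
Integral and fractional list packing of bipartite graphs with few conflicts on one side.

`Pk S p`: `p : Fin 3 → ℕ` is a bijection onto the list `S` (three colours), read as: in the `t`-th
colouring the vertex gets the colour `p t`.
-/

set_option autoImplicit false

namespace Pool.Agent.Helper83.FC

open Finset

/-- `p` lists the colours of `S` without repetition. -/
def Pk (S : Finset ℕ) (p : Fin 3 → ℕ) : Prop := Function.Injective p ∧ ∀ t, p t ∈ S

lemma Pk.image {S : Finset ℕ} (hS : S.card = 3) {p : Fin 3 → ℕ} (hp : Pk S p) :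
    Finset.univ.image p = S := by
  apply Finset.eq_of_subset_of_card_le
  · intro x hx
    obtain ⟨t, -, rfl⟩ := Finset.mem_image.1 hx
    exact hp.2 t
  · rw [Finset.card_image_of_injective _ hp.1, hS]
    simp

lemma Pk.surj {S : Finset ℕ} (hS : S.card = 3) {p : Fin 3 → ℕ} (hp : Pk S p) {x : ℕ}
    (hx : x ∈ S) : ∃ t, p t = x := by
  rw [← hp.image hS] at hx
  obtain ⟨t, -, h⟩ := Finset.mem_image.1 hx
  exact ⟨t, h⟩

/-- Two forbidden pairs can always be avoided by a permutation of three points. -/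
lemma perm_avoid : ∀ t₁ i₁ t₂ i₂ : Fin 3, ∃ σ : Equiv.Perm (Fin 3), σ t₁ ≠ i₁ ∧ σ t₂ ≠ i₂ := by
  decide

lemma exists_enum (S : Finset ℕ) (hS : S.card = 3) : ∃ e : Fin 3 → ℕ, Pk S e := by
  refine ⟨fun i => (S.equivFin.symm (Fin.cast hS.symm i) : ℕ), ?_, ?_⟩
  · intro i j hij
    have := Subtype.ext hij
    have := S.equivFin.symm.injective this
    simpa [Fin.ext_iff] using this
  · intro t
    exact (S.equivFin.symm (Fin.cast hS.symm t)).2

lemma exists_avoid (S : Finset ℕ) (hS : S.card = 3) (t₁ t₂ : Fin 3) (y₁ y₂ : ℕ) :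
    ∃ p, Pk S p ∧ p t₁ ≠ y₁ ∧ p t₂ ≠ y₂ := by
  obtain ⟨e, he⟩ := exists_enum S hS
  have key : ∀ y : ℕ, ∃ i : Fin 3, ∀ j : Fin 3, j ≠ i → e j ≠ y := by
    intro y
    by_cases hy : ∃ i, e i = y
    · obtain ⟨i, hi⟩ := hy
      exact ⟨i, fun j hj h => hj (he.1 (h.trans hi.symm))⟩
    · exact ⟨0, fun j _ h => hy ⟨j, h⟩⟩
  obtain ⟨i₁, h₁⟩ := key y₁
  obtain ⟨i₂, h₂⟩ := key y₂
  obtain ⟨σ, hσ₁, hσ₂⟩ := perm_avoid t₁ i₁ t₂ i₂
  refine ⟨fun t => e (σ t), ⟨he.1.comp σ.injective, fun t => he.2 _⟩, h₁ _ hσ₁, h₂ _ hσ₂⟩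

set_option maxRecDepth 100000 in
lemma board9 : ∀ a b c d e f g h i : Bool,
    -- rows (a b c) (d e f) (g h i); true = blocked
    (a && d && g) = false → (b && e && h) = false → (c && f && i) = false →
    (a && b && c) = false → (d && e && f) = false → (g && h && i) = false →
    (((a && d) || (a && g) || (d && g)) && ((b && e) || (b && h) || (e && h))) = false →
    (((a && d) || (a && g) || (d && g)) && ((c && f) || (c && i) || (f && i))) = false →
    (((b && e) || (b && h) || (e && h)) && ((c && f) || (c && i) || (f && i))) = false →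
    ((a || e || i) = false ∨ (a || f || h) = false ∨ (b || d || i) = false ∨ (b || f || g) = false ∨
      (c || d || h) = false ∨ (c || e || g) = false) := by
  decide

/-- Hall's condition on a 3 x 3 board in which no line is completely blocked and at most one column
has two blocked cells. -/
lemma board (M : Fin 3 → Fin 3 → Bool) (hcol : ∀ i, ∃ t, M t i = false)
    (hrow : ∀ t, ∃ i, M t i = false)
    (htwo : ∀ i j, i ≠ j → (∃ s t, s ≠ t ∧ M s i = true ∧ M t i = true) →
      (∃ s t, s ≠ t ∧ M s j = true ∧ M t j = true) → False) :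
    ∃ σ : Fin 3 → Fin 3, Function.Injective σ ∧ ∀ t, M t (σ t) = false := by
  have c3 : ∀ i, (M 0 i && M 1 i && M 2 i) = false := by
    intro i
    obtain ⟨t, ht⟩ := hcol i
    fin_cases t <;> simp_all
  have r3 : ∀ t, (M t 0 && M t 1 && M t 2) = false := by
    intro t
    obtain ⟨i, hi⟩ := hrow t
    fin_cases i <;> simp_all
  have two : ∀ i, ((M 0 i && M 1 i) || (M 0 i && M 2 i) || (M 1 i && M 2 i)) = true →
      ∃ s t, s ≠ t ∧ M s i = true ∧ M t i = true := by
    intro i hi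
    simp only [Bool.or_eq_true, Bool.and_eq_true] at hi
    rcases hi with (hi | hi) | hi
    · exact ⟨0, 1, by decide, hi.1, hi.2⟩
    · exact ⟨0, 2, by decide, hi.1, hi.2⟩
    · exact ⟨1, 2, by decide, hi.1, hi.2⟩
  have t2 : ∀ i j, i ≠ j → (((M 0 i && M 1 i) || (M 0 i && M 2 i) || (M 1 i && M 2 i)) &&
      ((M 0 j && M 1 j) || (M 0 j && M 2 j) || (M 1 j && M 2 j))) = false := by
    intro i j hij
    by_contra hne
    rw [Bool.not_eq_false, Bool.and_eq_true] at hne
    exact htwo i j hij (two i hne.1) (two j hne.2)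
  have key := board9 (M 0 0) (M 0 1) (M 0 2) (M 1 0) (M 1 1) (M 1 2) (M 2 0) (M 2 1) (M 2 2)
    (c3 0) (c3 1) (c3 2) (r3 0) (r3 1) (r3 2) (t2 0 1 (by decide)) (t2 0 2 (by decide))
    (t2 1 2 (by decide))
  simp only [Bool.or_eq_false_iff] at key
  rcases key with h | h | h | h | h | h
  · refine ⟨![0, 1, 2], by decide, ?_⟩
    intro t; fin_cases t
    exacts [h.1.1, h.1.2, h.2]
  · refine ⟨![0, 2, 1], by decide, ?_⟩
    intro t; fin_cases t
    exacts [h.1.1, h.1.2, h.2]
  · refine ⟨![1, 0, 2], by decide, ?_⟩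
    intro t; fin_cases t
    exacts [h.1.1, h.1.2, h.2]
  · refine ⟨![1, 2, 0], by decide, ?_⟩
    intro t; fin_cases t
    exacts [h.1.1, h.1.2, h.2]
  · refine ⟨![2, 0, 1], by decide, ?_⟩
    intro t; fin_cases t
    exacts [h.1.1, h.1.2, h.2]
  · refine ⟨![2, 1, 0], by decide, ?_⟩
    intro t; fin_cases t
    exacts [h.1.1, h.1.2, h.2]

section main

variable {n : ℕ} (G : SimpleGraph (Fin n)) (R : Fin n → Fin n → ℕ → ℕ → Prop) (L : Fin n → Finset ℕ)

/-- The colour `x` of the vertex `b` is in conflict with a colour of the list of `a`. -/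
def Hit (b a : Fin n) (x : ℕ) : Prop := ∃ x' ∈ L a, R b a x x'

/-- Number of neighbours of `b` at which the colour `x` of `b` has a conflict. -/
noncomputable def mult (b : Fin n) (x : ℕ) : ℕ := {a | G.Adj b a ∧ Hit R L b a x}.ncard

lemma two_le_mult {b a a' : Fin n} {x : ℕ} (h : G.Adj b a) (h' : G.Adj b a') (hx : Hit R L b a x)
    (hx' : Hit R L b a' x) (hne : a ≠ a') : 2 ≤ mult G R L b x := by
  have : ({a, a'} : Set (Fin n)) ⊆ {a | G.Adj b a ∧ Hit R L b a x} := by
    rintro u (rfl | rfl)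
    · exact ⟨h, hx⟩
    · exact ⟨h', hx'⟩
  have h2 := Set.ncard_le_ncard this (Set.toFinite _)
  rwa [Set.ncard_pair hne] at h2

lemma three_le_mult {b a a' a'' : Fin n} {x : ℕ} (h : G.Adj b a) (h' : G.Adj b a')
    (h'' : G.Adj b a'') (hx : Hit R L b a x) (hx' : Hit R L b a' x) (hx'' : Hit R L b a'' x)
    (h12 : a ≠ a') (h13 : a ≠ a'') (h23 : a' ≠ a'') : 3 ≤ mult G R L b x := by
  have : ({a, a', a''} : Set (Fin n)) ⊆ {a | G.Adj b a ∧ Hit R L b a x} := by
    rintro u (rfl | rfl | rfl)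
    · exact ⟨h, hx⟩
    · exact ⟨h', hx'⟩
    · exact ⟨h'', hx''⟩
  have h2 := Set.ncard_le_ncard this (Set.toFinite _)
  have h3 : ({a, a', a''} : Set (Fin n)).ncard = 3 :=
    Set.ncard_eq_three.2 ⟨a, a', a'', h12, h13, h23, rfl⟩
  rw [h3] at h2
  exact h2

/-- The neighbours of `b` having some conflict with `b`. -/
def rel (b : Fin n) : Set (Fin n) := {a | G.Adj b a ∧ ∃ x ∈ L b, Hit R L b a x}

/-- The condition at a vertex `b`: at most three neighbours have a conflict with `b`, no colour of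
`L b` has conflicts at three neighbours, at most one colour of `L b` has conflicts at two. -/
def Few (b : Fin n) : Prop :=
  (rel G R L b).ncard ≤ 3 ∧ (∀ x ∈ L b, mult G R L b x ≤ 2) ∧
    ∀ x ∈ L b, ∀ y ∈ L b, 2 ≤ mult G R L b x → 2 ≤ mult G R L b y → x = y

/-- A configuration: `r₁ < a < r₃` neighbours of `b`, in conflict with three different colours of
`L b`. -/
structure Conf (rk : Fin n → ℕ) (a b r₁ r₃ : Fin n) (x y z : ℕ) : Prop where
  adj₁ : G.Adj b r₁
  adj : G.Adj b a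
  adj₃ : G.Adj b r₃
  lt₁ : rk r₁ < rk a
  lt₃ : rk a < rk r₃
  x₁ : Hit R L b r₁ x
  xb : x ∈ L b
  ya : Hit R L b a y
  yb : y ∈ L b
  z₃ : Hit R L b r₃ z
  zb : z ∈ L b
  xy : x ≠ y
  yz : y ≠ z
  xz : x ≠ z

lemma mem_of_conf {S : Finset ℕ} (hS : S.card = 3) {x y z w : ℕ} (hx : x ∈ S) (hy : y ∈ S)
    (hz : z ∈ S) (hxy : x ≠ y) (hyz : y ≠ z) (hxz : x ≠ z) (hw : w ∈ S) :
    w = x ∨ w = y ∨ w = z := by
  have h : ({x, y, z} : Finset ℕ) = S := by
    apply Finset.eq_of_subset_of_card_le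
    · intro u hu
      simp only [Finset.mem_insert, Finset.mem_singleton] at hu
      rcases hu with rfl | rfl | rfl <;> assumption
    · rw [hS, Finset.card_eq_three.2 ⟨x, y, z, hxy, hxz, hyz, rfl⟩]
  rw [← h] at hw
  simpa using hw

/-- Four different neighbours in conflict with `b` are too many. -/
lemma four_rel {b u r s t : Fin n} (hF : Few G R L b) (hu : u ∈ rel G R L b)
    (hr : r ∈ rel G R L b) (hs : s ∈ rel G R L b) (ht : t ∈ rel G R L b) (n0 : u ≠ r) (n1 : u ≠ s)
    (n2 : u ≠ t) (n3 : r ≠ s) (n4 : r ≠ t) (n5 : s ≠ t) : False := by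
  have hsub : ({u, r, s, t} : Finset (Fin n)) ⊆ (Set.toFinite (rel G R L b)).toFinset := by
    intro w hw
    simp only [Finset.mem_insert, Finset.mem_singleton] at hw
    rw [Set.Finite.mem_toFinset]
    rcases hw with rfl | rfl | rfl | rfl <;> assumption
  have hc := Finset.card_le_card hsub
  rw [← Set.ncard_eq_toFinset_card _ (Set.toFinite _)] at hc
  have h4 : ({u, r, s, t} : Finset (Fin n)).card = 4 := by
    rw [Finset.card_insert_of_notMem (by simp [n0, n1, n2]),
      Finset.card_insert_of_notMem (by simp [n3, n4]),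
      Finset.card_insert_of_notMem (by simp [n5]), Finset.card_singleton]
  have := hF.1
  omega

lemma conf_unique {rk : Fin n → ℕ} {a b r₁ r₃ r₁' r₃' : Fin n} {x y z x' y' z' : ℕ}
    (hL : (L b).card = 3) (hF : Few G R L b)
    (h : Conf G R L rk a b r₁ r₃ x y z) (h' : Conf G R L rk a b r₁' r₃' x' y' z') :
    r₁' = r₁ ∧ x' = x ∧ y' = y := by
  have k₁ : r₁ ∈ rel G R L b := ⟨h.adj₁, x, h.xb, h.x₁⟩
  have ka : a ∈ rel G R L b := ⟨h.adj, y, h.yb, h.ya⟩
  have k₃ : r₃ ∈ rel G R L b := ⟨h.adj₃, z, h.zb, h.z₃⟩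
  have h1 := h.lt₁
  have h2 := h.lt₃
  have h3 := h'.lt₁
  have h4 := h'.lt₃
  have n3 : r₁ ≠ a := by rintro rfl; omega
  have n4 : r₁ ≠ r₃ := by rintro rfl; omega
  have n5 : a ≠ r₃ := by rintro rfl; omega
  have e₁ : r₁' = r₁ := by
    by_contra hne
    exact four_rel G R L hF (⟨h'.adj₁, x', h'.xb, h'.x₁⟩ : r₁' ∈ rel G R L b) k₁ ka k₃ hne
      (by rintro rfl; omega) (by rintro rfl; omega) n3 n4 n5
  have e₃ : r₃' = r₃ := by
    by_contra hne
    exact four_rel G R L hF (⟨h'.adj₃, z', h'.zb, h'.z₃⟩ : r₃' ∈ rel G R L b) k₁ ka k₃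
      (by rintro rfl; omega) (by rintro rfl; omega) hne n3 n4 n5
  subst e₁ e₃
  have cx' := mem_of_conf hL h.xb h.yb h.zb h.xy h.yz h.xz h'.xb
  have cy' := mem_of_conf hL h.xb h.yb h.zb h.xy h.yz h.xz h'.yb
  have cz' := mem_of_conf hL h.xb h.yb h.zb h.xy h.yz h.xz h'.zb
  -- two colours with multiplicity two are equal
  have hone := hF.2.2
  have m12 : ∀ {w : ℕ}, Hit R L b r₁' w → Hit R L b a w → 2 ≤ mult G R L b w := fun hw hw' =>
    two_le_mult G R L h.adj₁ h.adj hw hw' n3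
  have m13 : ∀ {w : ℕ}, Hit R L b r₁' w → Hit R L b r₃' w → 2 ≤ mult G R L b w := fun hw hw' =>
    two_le_mult G R L h.adj₁ h.adj₃ hw hw' n4
  have m23 : ∀ {w : ℕ}, Hit R L b a w → Hit R L b r₃' w → 2 ≤ mult G R L b w := fun hw hw' =>
    two_le_mult G R L h.adj h.adj₃ hw hw' n5
  have ey : y' = y := by
    rcases cy' with rfl | rfl | rfl
    · -- y' = x
      rcases cx' with h1 | rfl | rfl
      · exact absurd h1 h'.xy
      · exact (h.xy (hone _ h.xb _ h.yb (m12 h.x₁ h'.ya) (m12 h'.x₁ h.ya))).elim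
      · exact (h.xz (hone _ h.xb _ h.zb (m12 h.x₁ h'.ya) (m13 h'.x₁ h.z₃))).elim
    · rfl
    · -- y' = z
      rcases cz' with rfl | rfl | h1
      · exact (h.xz (hone _ h.xb _ h.zb (m13 h.x₁ h'.z₃) (m23 h'.ya h.z₃))).elim
      · exact (h.yz (hone _ h.yb _ h.zb (m23 h.ya h'.z₃) (m23 h'.ya h.z₃))).elim
      · exact absurd h1.symm h'.yz
  refine ⟨rfl, ?_, ey⟩
  subst ey
  rcases cx' with h1 | h1 | rfl
  · exact h1
  · exact absurd h1 h'.xy
  · rcases cz' with rfl | h1 | h1
    · exact (h.xz (hone _ h.xb _ h.zb (m13 h.x₁ h'.z₃) (m13 h'.x₁ h.z₃))).elim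
    · exact absurd h1.symm h'.yz
    · exact absurd h1.symm h'.xz

/-- The constraint of `b` at `a`. -/
def Cst (rk : Fin n → ℕ) (p : Fin n → Fin 3 → ℕ) (q : Fin 3 → ℕ) (a b : Fin n) : Prop :=
  ∀ r₁ r₃ x y z, Conf G R L rk a b r₁ r₃ x y z → ∀ t, ¬ (R b r₁ x (p r₁ t) ∧ R b a y (q t))

lemma exists_single {rk : Fin n → ℕ} {a b : Fin n} (hL : ∀ v, (L v).card = 3)
    (hR : ∀ u v a b b', R u v a b → R u v a b' → b = b')
    (hF : Few G R L b) (p : Fin n → Fin 3 → ℕ)
    (hp : ∀ r, G.Adj b r → rk r < rk a → Pk (L r) (p r)) :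
    ∃ t y, ∀ q : Fin 3 → ℕ, q t ≠ y → Cst G R L rk p q a b := by
  by_cases hex : ∃ r₁ r₃ x y z, Conf G R L rk a b r₁ r₃ x y z
  · obtain ⟨r₁, r₃, x, y, z, h⟩ := hex
    have hpr := hp r₁ h.adj₁ h.lt₁
    obtain ⟨x₀, hx₀, hxR⟩ := h.x₁
    obtain ⟨y₀, hy₀, hyR⟩ := h.ya
    obtain ⟨t, ht⟩ := hpr.surj (hL r₁) hx₀
    refine ⟨t, y₀, ?_⟩
    intro q hq r₁' r₃' x' y' z' h' t' ht'
    obtain ⟨e₁, ex, ey⟩ := conf_unique G R L (hL b) hF h h'
    subst e₁ ex ey
    have h1 : p r₁' t' = x₀ := hR _ _ _ _ _ ht'.1 hxR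
    have h2 : q t' = y₀ := hR _ _ _ _ _ ht'.2 hyR
    have : t' = t := hpr.1 (h1.trans ht.symm)
    subst this
    exact hq h2
  · refine ⟨0, 0, ?_⟩
    intro q _ r₁' r₃' x' y' z' h'
    exact (hex ⟨r₁', r₃', x', y', z', h'⟩).elim

/-- The `b` for which `a` is neither the first nor the last neighbour. -/
def Mid (rk : Fin n → ℕ) (a : Fin n) : Set (Fin n) :=
  {b | G.Adj a b ∧ (∃ u, G.Adj b u ∧ rk u < rk a) ∧ ∃ u, G.Adj b u ∧ rk a < rk u}

lemma exists_two {s : Set (Fin n)} (hs : s.ncard ≤ 2) (hn : Nonempty (Fin n)) :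
    ∃ b₁ b₂, ∀ b ∈ s, b = b₁ ∨ b = b₂ := by
  classical
  obtain ⟨x0⟩ := hn
  interval_cases h : s.ncard
  · rw [Set.ncard_eq_zero (Set.toFinite _)] at h
    subst h
    exact ⟨x0, x0, by simp⟩
  · rw [Set.ncard_eq_one] at h
    obtain ⟨u, rfl⟩ := h
    exact ⟨u, u, by simp⟩
  · rw [Set.ncard_eq_two] at h
    obtain ⟨u, v, -, rfl⟩ := h
    exact ⟨u, v, by simp⟩

lemma exists_at {rk : Fin n → ℕ} {a : Fin n} (hL : ∀ v, (L v).card = 3)
    (hR : ∀ u v a b b', R u v a b → R u v a b' → b = b')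
    (hF : ∀ b, G.Adj a b → Few G R L b) (hmid : (Mid G rk a).ncard ≤ 2) (p : Fin n → Fin 3 → ℕ)
    (hp : ∀ b r, G.Adj a b → G.Adj b r → rk r < rk a → Pk (L r) (p r)) :
    ∃ q, Pk (L a) q ∧ ∀ b, G.Adj a b → Cst G R L rk p q a b := by
  obtain ⟨b₁, b₂, hb⟩ := exists_two hmid ⟨a⟩
  have aux : ∀ b, ∃ t y, G.Adj a b → ∀ q : Fin 3 → ℕ, q t ≠ y → Cst G R L rk p q a b := by
    intro b
    by_cases hab : G.Adj a b
    · obtain ⟨t, y, h⟩ := exists_single G R L hL hR (hF b hab) p (rk := rk) (a := a)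
        (fun r hr hlt => hp b r hab hr hlt)
      exact ⟨t, y, fun _ => h⟩
    · exact ⟨0, 0, fun h => (hab h).elim⟩
  obtain ⟨t₁, y₁, h₁⟩ := aux b₁
  obtain ⟨t₂, y₂, h₂⟩ := aux b₂
  obtain ⟨q, hq, hq₁, hq₂⟩ := exists_avoid (L a) (hL a) t₁ t₂ y₁ y₂
  refine ⟨q, hq, ?_⟩
  intro b hab
  by_cases hbm : b ∈ Mid G rk a
  · rcases hb b hbm with rfl | rfl
    · exact h₁ hab q hq₁
    · exact h₂ hab q hq₂
  · intro r₁ r₃ x y z h
    exact (hbm ⟨hab, ⟨r₁, h.adj₁, h.lt₁⟩, ⟨r₃, h.adj₃, h.lt₃⟩⟩).elim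

lemma exists_family {side : Fin n → Bool} {rk : Fin n → ℕ} (hrk : Function.Injective rk)
    (hside : ∀ u v, G.Adj u v → side u ≠ side v)
    (hR : ∀ u v a b b', R u v a b → R u v a b' → b = b')
    (hL : ∀ v, (L v).card = 3)
    (hF : ∀ b, side b = false → Few G R L b)
    (hmid : ∀ a, side a = true → (Mid G rk a).ncard ≤ 2) (k : ℕ) :
    ∃ p : Fin n → Fin 3 → ℕ, ∀ a, side a = true → rk a < k →
      Pk (L a) (p a) ∧ ∀ b, G.Adj a b → Cst G R L rk p (p a) a b := by
  classical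
  induction k with
  | zero => exact ⟨fun _ _ => 0, fun a _ h => (Nat.not_lt_zero _ h).elim⟩
  | succ k ih =>
    obtain ⟨p, hp⟩ := ih
    by_cases hv : ∃ v, side v = true ∧ rk v = k
    · obtain ⟨v, hvs, hvk⟩ := hv
      have hsb : ∀ b, G.Adj v b → side b = false := by
        intro b hb
        have := hside v b hb
        rw [hvs] at this
        cases hsb : side b
        · rfl
        · exact (this hsb.symm).elim
      obtain ⟨q, hq, hqc⟩ := exists_at G R L (rk := rk) (a := v) hL hR (fun b hb => hF b (hsb b hb))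
        (hmid v hvs) p (by
          intro b r hb hr hlt
          have hbs := hsb b hb
          have hrs : side r = true := by
            have := hside b r hr
            rw [hbs] at this
            cases h : side r
            · exact (this h.symm).elim
            · rfl
          exact (hp r hrs (by omega)).1)
      refine ⟨Function.update p v q, ?_⟩
      intro a ha hak
      by_cases hav : a = v
      · subst hav
        rw [Function.update_self]
        refine ⟨hq, ?_⟩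
        intro b hb r₁ r₃ x y z h
        have hne : r₁ ≠ a := by
          rintro rfl
          exact lt_irrefl _ h.lt₁
        rw [Function.update_of_ne hne]
        exact hqc b hb r₁ r₃ x y z h
      · rw [Function.update_of_ne hav]
        have hak' : rk a < k := by
          rcases Nat.lt_succ_iff_lt_or_eq.1 hak with h | h
          · exact h
          · exact (hav (hrk (h.trans hvk.symm))).elim
        refine ⟨(hp a ha hak').1, ?_⟩
        intro b hb r₁ r₃ x y z h
        have hne : r₁ ≠ v := by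
          rintro rfl
          have := h.lt₁
          omega
        rw [Function.update_of_ne hne]
        exact (hp a ha hak').2 b hb r₁ r₃ x y z h
    · refine ⟨p, ?_⟩
      intro a ha hak
      have hak' : rk a < k := by
        rcases Nat.lt_succ_iff_lt_or_eq.1 hak with h | h
        · exact h
        · exact (hv ⟨a, ha, h⟩).elim
      exact hp a ha hak'

/-- Extension to a vertex of the other side. -/
lemma extend {rk : Fin n → ℕ} (hrk : Function.Injective rk) {b : Fin n}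
    (hRs : ∀ u v a b, R u v a b → R v u b a) (hR : ∀ u v a b b', R u v a b → R u v a b' → b = b')
    (hL : (L b).card = 3) (hF : Few G R L b) (p : Fin n → Fin 3 → ℕ)
    (hp : ∀ a, G.Adj b a → Pk (L a) (p a))
    (hc : ∀ a, G.Adj b a → Cst G R L rk p (p a) a b) :
    ∃ q, Pk (L b) q ∧ ∀ a, G.Adj b a → ∀ t, ¬ R b a (q t) (p a t) := by
  classical
  obtain ⟨e, he⟩ := exists_enum (L b) hL
  set M : Fin 3 → Fin 3 → Bool := fun t i => decide (∃ a, G.Adj b a ∧ R b a (e i) (p a t)) with hM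
  have hMt : ∀ t i, M t i = true ↔ ∃ a, G.Adj b a ∧ R b a (e i) (p a t) := by
    intro t i
    simp [hM]
  have hMf : ∀ t i, M t i = false ↔ ¬ ∃ a, G.Adj b a ∧ R b a (e i) (p a t) := by
    intro t i
    simp [hM]
  have hne : ∀ {s t i a a'}, s ≠ t → G.Adj b a → R b a (e i) (p a s) → R b a' (e i) (p a' t) →
      a ≠ a' := by
    rintro s t i a a' hst ha h1 h2 rfl
    exact hst ((hp a ha).1 (hR _ _ _ _ _ h1 h2))
  have hhit : ∀ {t i a}, G.Adj b a → R b a (e i) (p a t) → Hit R L b a (e i) :=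
    fun {t i a} ha h => ⟨p a t, (hp a ha).2 t, h⟩
  have hcol : ∀ i, ∃ t, M t i = false := by
    intro i
    by_contra hcon
    have hcon' : ∀ t, M t i = true := fun t => by
      by_contra h
      exact hcon ⟨t, by simpa using h⟩
    obtain ⟨a0, g0, q0⟩ := (hMt 0 i).1 (hcon' 0)
    obtain ⟨a1, g1, q1⟩ := (hMt 1 i).1 (hcon' 1)
    obtain ⟨a2, g2, q2⟩ := (hMt 2 i).1 (hcon' 2)
    have m := three_le_mult G R L (x := e i) g0 g1 g2 (hhit g0 q0) (hhit g1 q1)
      (hhit g2 q2) (hne (by decide) g0 q0 q1) (hne (by decide) g0 q0 q2)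
      (hne (by decide) g1 q1 q2)
    have := hF.2.1 (e i) (he.2 i)
    omega
  have hm2 : ∀ i, (∃ s t, s ≠ t ∧ M s i = true ∧ M t i = true) → 2 ≤ mult G R L b (e i) := by
    rintro i ⟨s, t, hst, h1, h2⟩
    obtain ⟨a1, g1, q1⟩ := (hMt s i).1 h1
    obtain ⟨a2, g2, q2⟩ := (hMt t i).1 h2
    exact two_le_mult G R L (x := e i) g1 g2 (hhit g1 q1) (hhit g2 q2) (hne hst g1 q1 q2)
  have htwo : ∀ i j, i ≠ j → (∃ s t, s ≠ t ∧ M s i = true ∧ M t i = true) →
      (∃ s t, s ≠ t ∧ M s j = true ∧ M t j = true) → False := by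
    intro i j hij h1 h2
    exact hij (he.1 (hF.2.2 _ (he.2 i) _ (he.2 j) (hm2 i h1) (hm2 j h2)))
  -- three neighbours in increasing order cannot block a row
  have ord : ∀ t (i j k : Fin 3) (a₁ a₂ a₃ : Fin n), i ≠ j → j ≠ k → i ≠ k →
      G.Adj b a₁ → G.Adj b a₂ → G.Adj b a₃ → R b a₁ (e i) (p a₁ t) → R b a₂ (e j) (p a₂ t) →
      R b a₃ (e k) (p a₃ t) → rk a₁ < rk a₂ → rk a₂ < rk a₃ → False := by
    intro t i j k a₁ a₂ a₃ hij hjk hik g1 g2 g3 q1 q2 q3 l1 l2
    refine hc a₂ g2 a₁ a₃ (e i) (e j) (e k) ?_ t ⟨q1, q2⟩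
    exact { adj₁ := g1, adj := g2, adj₃ := g3, lt₁ := l1, lt₃ := l2,
            x₁ := hhit g1 q1, xb := he.2 i, ya := hhit g2 q2, yb := he.2 j,
            z₃ := hhit g3 q3, zb := he.2 k,
            xy := fun h => hij (he.1 h), yz := fun h => hjk (he.1 h), xz := fun h => hik (he.1 h) }
  have hsame : ∀ {t i j a a'}, i ≠ j → R b a (e i) (p a t) → R b a' (e j) (p a' t) → a ≠ a' := by
    rintro t i j a a' hij h1 h2 rfl
    exact hij (he.1 (hR _ _ _ _ _ (hRs _ _ _ _ h1) (hRs _ _ _ _ h2)))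
  have hrow : ∀ t, ∃ i, M t i = false := by
    intro t
    by_contra hcon
    have hcon' : ∀ i, M t i = true := fun i => by
      by_contra h
      exact hcon ⟨i, by simpa using h⟩
    obtain ⟨a0, g0, q0⟩ := (hMt t 0).1 (hcon' 0)
    obtain ⟨a1, g1, q1⟩ := (hMt t 1).1 (hcon' 1)
    obtain ⟨a2, g2, q2⟩ := (hMt t 2).1 (hcon' 2)
    have n01 : rk a0 ≠ rk a1 := fun h => hsame (by decide) q0 q1 (hrk h)
    have n02 : rk a0 ≠ rk a2 := fun h => hsame (by decide) q0 q2 (hrk h)
    have n12 : rk a1 ≠ rk a2 := fun h => hsame (by decide) q1 q2 (hrk h)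
    rcases lt_or_gt_of_ne n01 with l1 | l1
    · rcases lt_or_gt_of_ne n12 with l2 | l2
      · exact ord t 0 1 2 a0 a1 a2 (by decide) (by decide) (by decide) g0 g1 g2 q0 q1 q2 l1 l2
      · rcases lt_or_gt_of_ne n02 with l3 | l3
        · exact ord t 0 2 1 a0 a2 a1 (by decide) (by decide) (by decide) g0 g2 g1 q0 q2 q1 l3 l2
        · exact ord t 2 0 1 a2 a0 a1 (by decide) (by decide) (by decide) g2 g0 g1 q2 q0 q1 l3 l1
    · rcases lt_or_gt_of_ne n02 with l2 | l2
      · exact ord t 1 0 2 a1 a0 a2 (by decide) (by decide) (by decide) g1 g0 g2 q1 q0 q2 l1 l2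
      · rcases lt_or_gt_of_ne n12 with l3 | l3
        · exact ord t 1 2 0 a1 a2 a0 (by decide) (by decide) (by decide) g1 g2 g0 q1 q2 q0 l3 l2
        · exact ord t 2 1 0 a2 a1 a0 (by decide) (by decide) (by decide) g2 g1 g0 q2 q1 q0 l3 l1
  obtain ⟨σ, hσ, hσM⟩ := board M hcol hrow htwo
  refine ⟨fun t => e (σ t), ⟨he.1.comp hσ, fun t => he.2 _⟩, ?_⟩
  intro a ha t hat
  exact (hMf t (σ t)).1 (hσM t) ⟨a, ha, hat⟩

theorem exists_integral {side : Fin n → Bool} {rk : Fin n → ℕ} (hrk : Function.Injective rk)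
    (hside : ∀ u v, G.Adj u v → side u ≠ side v)
    (hRs : ∀ u v a b, R u v a b → R v u b a) (hR : ∀ u v a b b', R u v a b → R u v a b' → b = b')
    (hL : ∀ v, (L v).card = 3)
    (hF : ∀ b, side b = false → Few G R L b)
    (hmid : ∀ a, side a = true → (Mid G rk a).ncard ≤ 2) :
    ∃ c : Fin 3 → Fin n → ℕ, (∀ t v, c t v ∈ L v) ∧
      (∀ t u v, G.Adj u v → ¬ R u v (c t u) (c t v)) ∧ ∀ v s t, s ≠ t → c s v ≠ c t v := by
  classical
  obtain ⟨K, hK⟩ : ∃ K, ∀ v, rk v < K := by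
    refine ⟨(Finset.univ.sup rk) + 1, fun v => Nat.lt_succ_of_le (Finset.le_sup (Finset.mem_univ v))⟩
  obtain ⟨p, hp⟩ := exists_family G R L hrk hside hR hL hF hmid K
  have hst : ∀ b a, side b = false → G.Adj b a → side a = true := by
    intro b a hb hba
    have := hside b a hba
    rw [hb] at this
    cases h : side a
    · exact (this h.symm).elim
    · rfl
  have hext : ∀ b, ∃ q, side b = false →
      Pk (L b) q ∧ ∀ a, G.Adj b a → ∀ t, ¬ R b a (q t) (p a t) := by
    intro b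
    by_cases hb : side b = false
    · obtain ⟨q, hq⟩ := extend G R L hrk hRs hR (hL b) (hF b hb) p
        (fun a ha => (hp a (hst b a hb ha) (hK a)).1)
        (fun a ha => (hp a (hst b a hb ha) (hK a)).2 b ha.symm)
      exact ⟨q, fun _ => hq⟩
    · exact ⟨fun _ => 0, fun h => (hb h).elim⟩
  choose q hq using hext
  let P : Fin n → Fin 3 → ℕ := fun v => if side v = true then p v else q v
  have hPt : ∀ v, side v = true → P v = p v := fun v h => by simp [P, h]
  have hPf : ∀ v, side v = false → P v = q v := fun v h => by simp [P, h]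
  have hPk : ∀ v, Pk (L v) (P v) := by
    intro v
    cases h : side v
    · rw [hPf v h]; exact (hq v h).1
    · rw [hPt v h]; exact (hp v h (hK v)).1
  refine ⟨fun t v => P v t, fun t v => (hPk v).2 t, ?_, ?_⟩
  · intro t u v huv
    cases hu : side u
    · have hv := hst u v hu huv
      show ¬ R u v (P u t) (P v t)
      rw [hPf u hu, hPt v hv]
      exact (hq u hu).2 v huv t
    · have hv : side v = false := by
        have := hside u v huv
        rw [hu] at this
        cases h : side v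
        · rfl
        · exact (this h.symm).elim
      show ¬ R u v (P u t) (P v t)
      rw [hPt u hu, hPf v hv]
      exact fun h => (hq v hv).2 u huv.symm t (hRs _ _ _ _ h)
  · intro v s t hst' h
    exact hst' ((hPk v).1 h)

/-- Three disjoint colourings give a fractional packing. -/
theorem fractional {c : Fin 3 → Fin n → ℕ} (hL : ∀ v, (L v).card = 3)
    (h1 : ∀ t v, c t v ∈ L v) (h2 : ∀ t u v, G.Adj u v → ¬ R u v (c t u) (c t v))
    (h3 : ∀ v s t, s ≠ t → c s v ≠ c t v) :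
    ∃ (S : Finset (Fin n → ℕ)) (w : (Fin n → ℕ) → ℝ),
      (∀ c ∈ S, 0 ≤ w c ∧ (∀ v, c v ∈ L v) ∧ ∀ u v, G.Adj u v → ¬ R u v (c u) (c v)) ∧
      ∑ c ∈ S, w c = 1 ∧
      ∀ v, ∀ x ∈ L v, ∑ c ∈ S.filter (fun c => c v = x), w c = 1 / 3 := by
  classical
  refine ⟨Finset.univ.image c, fun f => ((Finset.univ.filter (fun t => c t = f)).card : ℝ) / 3,
    ?_, ?_, ?_⟩
  · intro f hf
    obtain ⟨t, -, rfl⟩ := Finset.mem_image.1 hf
    exact ⟨by positivity, h1 t, h2 t⟩
  · rw [← Finset.sum_div, ← Nat.cast_sum]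
    have := Finset.card_eq_sum_card_image c (Finset.univ : Finset (Fin 3))
    rw [← this]
    simp
  · intro v x hx
    have hpk : Pk (L v) (fun t => c t v) := by
      refine ⟨?_, fun t => h1 t v⟩
      intro s t hst
      by_contra hne
      exact h3 v s t hne hst
    obtain ⟨t0, ht0⟩ := hpk.surj (hL v) hx
    have hone : (Finset.univ.filter (fun t => c t v = x)) = {t0} := by
      ext t
      simp only [Finset.mem_filter, Finset.mem_univ, true_and, Finset.mem_singleton]
      constructor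
      · intro h
        exact hpk.1 (h.trans ht0.symm)
      · rintro rfl
        exact ht0
    rw [← Finset.sum_div, ← Nat.cast_sum]
    have hmaps : ∀ t ∈ Finset.univ.filter (fun t => c t v = x),
        c t ∈ (Finset.univ.image c).filter (fun f => f v = x) := by
      intro t ht
      simp only [Finset.mem_filter, Finset.mem_univ, true_and] at ht
      simp only [Finset.mem_filter, Finset.mem_image, Finset.mem_univ, true_and]
      exact ⟨⟨t, rfl⟩, ht⟩
    have hsum := Finset.card_eq_sum_card_fiberwise hmaps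
    have hcongr : ∑ f ∈ (Finset.univ.image c).filter (fun f => f v = x),
        (Finset.univ.filter (fun t => c t = f)).card =
        ∑ f ∈ (Finset.univ.image c).filter (fun f => f v = x),
        ((Finset.univ.filter (fun t => c t v = x)).filter (fun t => c t = f)).card := by
      apply Finset.sum_congr rfl
      intro f hf
      congr 1
      ext t
      simp only [Finset.mem_filter, Finset.mem_univ, true_and]
      constructor
      · rintro rfl
        exact ⟨(Finset.mem_filter.1 hf).2, rfl⟩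
      · exact fun h => h.2
    rw [hcongr, ← hsum, hone]
    simp

end main

end Pool.Agent.Helper83.FC
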